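import Pool.Agent.Q193.LT.Cyc
import Pool.Agent.Q148.LI.Proper

/-!
# The sign conjecture and the cubic hypersurfaces `T(x, y, z) = 1`

Let `F` be a perfect field and `k` an algebraic extension of `F` (for instance `k = F`, or `F` a prime
field and `k` an algebraic closure of `F`). For a smooth projective scheme `Y` over `F` let `A^n(Y)` be
the space of the algebraic classes in `H^{2n}(Y_k)` (the `ℚ`-linear combinations of cycle classes), and
let `B^n(Y)` be the space of the classes which are obtained from algebraic classes and the even Künneth
projectors `π^+` of smooth projective varieties: `B` is the smallest system of rational subspaces which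
contains the algebraic classes and the projectors `π^+` and is stable under products, inverse images and
direct images. Both are additive functors of the Chow motive of `Y_k`, with an inclusion `A^n ⊆ B^n`.

For a separated scheme `X` of finite type over `F` let `W(X)` be the weight complex of `X_k` (Gillet,
Soulé, Bondarko; a complex of Chow motives over `k` with rational coefficients, for the cohomology with
compact supports; `W(X) = h(X_k)` for smooth projective `X`), and put `A^{n,i}(X) = H^i(A^n(W(X)))` and
`B^{n,i}(X) = H^i(B^n(W(X)))`. `BijAll C X` says that the maps `A^{n,i}(X) → B^{n,i}(X)` are isomorphisms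
for all `n` and `i`; for smooth projective `Y` it says that `A^n(Y) = B^n(Y)` for all `n`.

The conjecture `C^+` is true for all smooth proper schemes over `k` if and only if it is true for the
smooth projective ones (a smooth proper variety `X` is dominated by a smooth projective variety `X'` of
the same dimension, by Chow's lemma and de Jong's alterations, and `π^+` of `X` is a rational multiple of
the image of `π^+` of `X'`), and this is equivalent to `A^n = B^n` for all of them (hypothesis `sign`; all
smooth projective varieties over `k` are unions of connected components of schemes `Y_k`).

**Theorem.** (1) The sign conjecture `C^+` is true for all smooth proper schemes over `k` if and only if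
the maps `A^{n,i}(Z) → B^{n,i}(Z)` are isomorphisms for the smooth affine cubic hypersurfaces
`Z : T(x, y, z) = 1` of all trilinear forms `T` with coefficients in `F`. If `F` is a prime field it is
enough to consider the hypersurfaces `∑_{(i, j, l) ∈ H} x_i y_j z_l = 1` for the finite sets `H` of
triples.

(2) For all `n`, the classes in `B` are algebraic on all smooth projective varieties of dimension at most
`n` over `k` if and only if the maps are isomorphisms for the hypersurfaces `T(x, y, z) = 1` such that one
of the three blocks of variables has at most `n + 2` variables (the other two blocks are arbitrary).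

(3) Unconditionally, the maps are isomorphisms if one of the blocks has at most three variables; in
characteristic zero this is true for blocks of at most five variables.
-/

set_option autoImplicit false

open CategoryTheory CategoryTheory.Limits AlgebraicGeometry Pool.Agent.Y116.UV Pool.Agent.Z125.UN
  Pool.Agent.Q193.LT Pool.Agent.Q148.LI

universe w w'

namespace Pool.Agent.Results.MP_56c18a_ag.CubicHypersurfaces

/-- The cohomology groups of `X_k × X_k` and the even Künneth projector. -/
structure SignData (F : Type) [Field F] where
  /-- `H^{2 d}(X_k × X_k)`, for `X` of dimension `d` -/
  E : Sch F → ModuleCat.{w'} ℚ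
  /-- the algebraic classes -/
  alg : ∀ X, Submodule ℚ (E X)
  /-- the even Künneth projector `π^+` -/
  even : ∀ X, E X

/-- The conjecture `C^+` for `X_k`. -/
def CPlus {F : Type} [Field F] (D : SignData.{w'} F) (X : Sch F) : Prop := D.even X ∈ D.alg X

/-- The maps are isomorphisms for all smooth projective schemes of dimension at most `n`. -/
def Proj {F : Type} [Field F] (C : PairData.{w} F (ℤ × ℤ) ℚ) (n : ℕ) : Prop :=
  ∀ Y : Sch F, SmoothProj Y → topologicalKrullDim Y.left ≤ n → BijAll C Y

/-- The maps are isomorphisms for all hypersurfaces `T = 1` with a block of at most `m` variables. -/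
def Forms {F : Type} [Field F] (C : PairData.{w} F (ℤ × ℤ) ℚ) (m : ℕ) : Prop :=
  ∀ (a b c : ℕ) (T : Fin a → Fin b → Fin c → F), (a ≤ m ∨ b ≤ m ∨ c ≤ m) → BijAll C (hypS T)

/-- **The sign conjecture and cubic hypersurfaces.** See the explanations above. Known cases that are
used: points and curves, and in characteristic zero varieties of dimension at most three (the classes in
`B` are Hodge classes, those of codimension one are algebraic by Lefschetz's theorem on
`(1, 1)`-classes, and those of dimension one by hard Lefschetz). -/
theorem result {F : Type} [Field F] [PerfectField F] {D : SignData.{w'} F}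
    {C : PairData.{w} F (ℤ × ℤ) ℚ} (hC : IsWeightPair C) (hg : WeightGen C)
    (point : BijAll C (aff F F))
    (sign : (∀ X : Sch F, SmoothProper X → CPlus D X) ↔ ∀ Y : Sch F, SmoothProj Y → BijAll C Y)
    (curves : Proj C 1) (threefolds : CharZero F → Proj C 3) :
    ((∀ X : Sch F, SmoothProper X → CPlus D X) ↔
      ∀ (a b c : ℕ) (T : Fin a → Fin b → Fin c → F), BijAll C (hypS T)) ∧
    (Frac F → ((∀ X : Sch F, SmoothProper X → CPlus D X) ↔
      ∀ (a b c : ℕ) (H : Finset (Fin a × Fin b × Fin c)), BijAll C (tripS F H))) ∧
    (∀ n : ℕ, Proj C n ↔ Forms C (n + 2)) ∧ Forms C 3 ∧ (CharZero F → Forms C 5) :=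
  ⟨sign.trans (wg_all hg hC point), fun hF => sign.trans (wg_graph hg hC point hF),
    fun n => wg_dim hg hC point n, (wg_dim hg hC point 1).mp curves,
    fun h => (wg_dim hg hC point 3).mp (threefolds h)⟩

end Pool.Agent.Results.MP_56c18a_ag.CubicHypersurfaces
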