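import Pool.Agent.Q67.Det.Sgn

/-!
# MP_56c18a_ag: the sign conjecture and one decomposable class
-/

set_option autoImplicit false

open CategoryTheory AlgebraicGeometry

universe u v

namespace Pool.Agent.Results.MP_56c18a_ag.OneDecomposableClass

open Pool.Agent.H914 VarClass Obj WeilCohomology Pool.Agent.H447 Pool.Agent.Q67.Det

/-- Let `X` be a smooth proper variety of dimension `n` and `W` a Weil cohomology theory with
coefficient field `K` (for example de Rham cohomology in characteristic zero or rational crystalline
cohomology in positive characteristic; hard Lefschetz is not assumed). Let `b` be the dimension of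
the even cohomology of `X`, `e_1, ..., e_b` a basis of it, and
`ω = ∑ sgn(σ) e_(σ 1) × ... × e_(σ b)`, a class of degree `b n` on `X^b`.

The sign conjecture holds for `X` (the even Kunneth projector is given by an algebraic cycle with
rational coefficients) if and only if the class `ω × ω` on `X^b × X^b` is algebraic (a `K`-linear
combination of classes of cycles of codimension `b n`). It is also equivalent to the same condition
for the odd cohomology of `X`. -/
theorem result {k : Type u} [Field k] {𝒱 : VarClass k} {ops : CycleOps 𝒱}
    (W : WeilCohomology.{u, v} ops) (X : 𝒱.Obj) :
    [SignStd W X, SquareAlgebraic W X 0, SquareAlgebraic W X 1].TFAE :=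
  sign_square_tfae W X

end Pool.Agent.Results.MP_56c18a_ag.OneDecomposableClass
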