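import Pool.Agent.Q69.KN.Sign

/-!
# The sign conjecture and one equality of intersection numbers

Let `W` be a Weil cohomology theory and `X` a smooth proper variety of dimension `n`. Let `z` be a cycle
of codimension `n` on `X × X`, with rational coefficients, which has the same intersection numbers
with all cycles of codimension `n` on `X × X` as the class inducing the projector onto the even
cohomology of `X` (a numerical representative of this class). Then

* the two numbers `(z · ᵗz)` and `(z · ᵗ(z ∘ z))` satisfy `(z · ᵗz) ≤ (z · ᵗ(z ∘ z))`;
* they are equal if and only if the sign conjecture holds for `X`, that is, the projector onto the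
  even cohomology of `X` is induced by an algebraic cycle with rational coefficients.

So the sign conjecture for `X` holds if and only if there is a numerical representative `z` with
`(z · ᵗz) = (z · ᵗ(z ∘ z))`. In the starting theorem `Pool.Agent.H447.sign_iff_num` the condition is
that `z ∘ z` is numerically equivalent to `z`, that is the equality of the intersection numbers with
all cycles.

Proof. For the operator `T` of `z` on `H(X)` and all `k`,
`tr(T^(k+1) | H^+) - tr(T^(k+1) | H^-) = tr(T^k | H^+)`. Hence if the eigenvalue `c` of `T` has the
multiplicities `m` on `H^+` and `l` on `H^-` then `c (m - l) = m`; so `c` is a rational number and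
`m c (c - 1) = m^2 l / (m - l)^2 ≥ 0`. The sum of these numbers is `(z · ᵗ(z ∘ z)) - (z · ᵗz)`. If it is
zero then `c = 1` and `l = 0`, or `c = 0` and `m = 0`: the projector is a polynomial in `T`.
-/

open CategoryTheory AlgebraicGeometry

set_option autoImplicit false

universe u v

namespace Pool.Agent.Results.MP_56c18a_ag.OneEqualityOfNumbers

open Pool.Agent.H914 Pool.Agent.H447 Pool.Agent.Q69.KN VarClass Obj WeilCohomology

/-- The sign conjecture for `X` holds if and only if the class inducing the even projector has the
intersection numbers of a cycle `z` with `(z · ᵗz) = (z · ᵗ(z ∘ z))`; for all numerical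
representatives `z` of this class there is an inequality. -/
theorem result {k : Type u} [Field k] {𝒱 : VarClass k} {ops : CycleOps 𝒱}
    (W : WeilCohomology.{u, v} ops) (X : 𝒱.Obj) :
    (SignStd W X ↔ SignOne W X) ∧
      ∀ z : (X.prod X).Cycles, (X.prod X).IsCyc X.dim z →
        (∀ τ, IsEvenClass W X τ → NumRep W (X.prod X) X.dim z τ) →
          squareNumber ops X z ≤ cubeNumber ops X z ∧
            (squareNumber ops X z = cubeNumber ops X z ↔ SignStd W X) :=
  ⟨sign_iff_one, fun _ hz hnum => sign_number hz hnum⟩

end Pool.Agent.Results.MP_56c18a_ag.OneEqualityOfNumbers
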