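import Pool.Agent.Q115.DU.Mot

/-!
# The sign conjecture and one position of the weight complexes of cubic hypersurfaces

Let `k` be a perfect field and `A` the category of homological motives over `k` with rational
coefficients, for the cohomology of the question (de Rham cohomology in characteristic zero,
crystalline cohomology in characteristic `p`). For a scheme `X` of finite type over `k` let `Mc X` be
its weight complex with compact support in the homotopy category `K(A)` (Gillet, Soulé, Bondarko).
Let `h w M` be the part of weight `w` of the realization of `M`, so `h w` is `H_{-w}(Y)`, the dual of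
`H^{-w}(Y)`, for the motive of a smooth proper `Y`. The cohomology in position `p` of the complex
`h w (Mc X)` is denoted by `Gr^W_w H_{-w-p}(X)`.

A cubic is a smooth affine hypersurface `Z : T(x, y, z) = 1`, where `T` is a trilinear form with
coefficients in `S`, and `S = k`, or `k` is a prime field and `S = {0, 1}`.

**Theorem.** (1) For all smooth proper `Y_1, …, Y_r` there is ONE cubic `Z` such that `C⁺(Y_i)` holds
for all `i` if some endomorphism of `Mc Z` in `K(A)` induces the identity on `Gr^W_w H_{3-w}(Z)` for
even `w` and zero for odd `w`.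

(2) `C⁺(Y)` holds for all smooth proper `Y` if and only if for all cubics `Z` some endomorphism of
`Mc Z` induces the identity on `Gr^W_w H_j(Z)` for even `w` and zero for odd `w`, for all `j`.

(3) `C⁺(Y)` holds for all smooth proper `Y` if and only if for all cubics `Z` some endomorphism of
`Mc Z` induces the identity on `Gr^W_w H_{3-w}(Z)` for even `w` and zero for odd `w`.
-/

set_option autoImplicit false

open CategoryTheory CategoryTheory.Limits AlgebraicGeometry Pretriangulated
  Pool.Agent.Y116.UV Pool.Agent.Q193.LT Pool.Agent.Q115.DU

namespace Pool.Agent.Results.MP_56c18a_ag.SignOfCubics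

universe v u v' u'

variable {k : Type} [Field k] {A : Type u} [Category.{v} A] [Preadditive A] [HasZeroObject A]
  [HasBinaryBiproducts A] {E : Type u'} [Category.{v'} E] [Abelian E]

/-- `Y` is smooth and proper over `k`. -/
def SmoothProper (Y : Sch k) : Prop := Smooth Y.hom ∧ IsProper Y.hom

/-- The projector of the realization of the motive `M` onto the parts of even weight is induced by an
endomorphism of `M`. -/
def Sign (D : MotData k A E) (M : A) : Prop :=
  ∃ π : M ⟶ M, ∀ w, (Even w → (D.h w).map π = 𝟙 _) ∧ (¬ Even w → (D.h w).map π = 0)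

/-- There is an endomorphism of the complex `K` in the homotopy category which induces the identity
on the cohomology of the complexes `h w K` for even `w` and zero for odd `w`. -/
def SignAll (D : MotData k A E) [∀ w, (D.h w).Additive] (K : HK A) : Prop :=
  ∃ π : K ⟶ K, ∀ w p, (Even w → (coh D.h (w, p)).map π = 𝟙 _) ∧
    (¬ Even w → (coh D.h (w, p)).map π = 0)

/-- The same only for the cohomology in the position `p`. -/
def SignAt (D : MotData k A E) [∀ w, (D.h w).Additive] (p : ℤ) (K : HK A) : Prop :=
  ∃ π : K ⟶ K, ∀ w, (Even w → (coh D.h (w, p)).map π = 𝟙 _) ∧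
    (¬ Even w → (coh D.h (w, p)).map π = 0)

/-- the set of the even numbers -/
def evens : Set (Set ℤ) := {{w | Even w}}

lemma translates_evens : Translates evens := by
  rintro _ rfl
  refine ⟨?_, ?_⟩
  · change {w : ℤ | Even (w + 2)} = {w | Even w}
    ext w
    change Even (w + 2) ↔ Even w
    rw [Int.even_add]
    simp
  · change {w : ℤ | Even (w - 2)} = {w | Even w}
    ext w
    change Even (w - 2) ↔ Even w
    rw [Int.even_sub]
    simp

variable {D : MotData k A E}

omit [HasZeroObject A] [HasBinaryBiproducts A] in
lemma sign_iff (M : A) : Projectors D evens M ↔ Sign D M := by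
  constructor
  · intro h
    exact h _ rfl
  · rintro h _ rfl
    exact h

variable [∀ w, (D.h w).Additive]

omit [HasZeroObject A] [HasBinaryBiproducts A] in
lemma signAll_iff (K : HK A) : ProjectorsC D evens K ↔ SignAll D K := by
  constructor
  · intro h
    obtain ⟨π, hπ⟩ := h _ rfl
    exact ⟨π, fun w p => hπ (w, p)⟩
  · rintro ⟨π, hπ⟩ _ rfl
    exact ⟨π, fun w => hπ w.1 w.2⟩

omit [HasZeroObject A] [HasBinaryBiproducts A] in
lemma signAt_iff (p : ℤ) (K : HK A) : ProjectorsAt D evens p K ↔ SignAt D p K := by
  constructor
  · intro h
    exact h _ rfl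
  · rintro h _ rfl
    exact h

/-- **The sign conjecture and one position of the weight complexes of cubics.** -/
theorem result [D.t.functor.Additive] (hD : IsMotData SmoothProper D) (S : Set k)
    (hS : S = Set.univ ∨ (Frac k ∧ S = {0, 1})) :
    (∀ L : List (Sch k), (∀ Y ∈ L, SmoothProper Y) → ∃ Z : Sch k, IsCubic S Z ∧
      (SignAt D (-3) (D.Mc Z) → ∀ Y ∈ L, Sign D (D.mot Y))) ∧
    ((∀ Y : Sch k, SmoothProper Y → Sign D (D.mot Y)) ↔
      ∀ Z : Sch k, IsCubic S Z → SignAll D (D.Mc Z)) ∧
    ((∀ Y : Sch k, SmoothProper Y → Sign D (D.mot Y)) ↔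
      ∀ Z : Sch k, IsCubic S Z → SignAt D (-3) (D.Mc Z)) := by
  have h := projectors_cubic hD translates_evens S hS
  simp only [sign_iff, signAll_iff, signAt_iff] at h
  exact h

end Pool.Agent.Results.MP_56c18a_ag.SignOfCubics
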